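import Pool.Agent.Helper14.FO.Defs

/-! `ST_TEN`: spectral certificates of tensor products. -/

set_option autoImplicit false

namespace Pool.Agent.Helper14.FO

open Finset

open scoped Kronecker

theorem st_TEN : ST_TEN := by
  intro V W _ _ _ _ X Y M hM0 hM1 hX hY
  obtain ⟨A, a1, a2, a3, a4⟩ := hX
  obtain ⟨B, b1, b2, b3, b4⟩ := hY
  have one : ∀ {T : Type} [Fintype T] [DecidableEq T], (1 : Matrix T T ℝ).PosSemidef :=
    Matrix.PosSemidef.one
  have hA : ((1 : Matrix V V ℝ) + A).PosSemidef := by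
    have e : (1 : Matrix V V ℝ) + A = (A + M • (1 : Matrix V V ℝ)) +
        (1 - M) • (1 : Matrix V V ℝ) := by
      rw [sub_smul, one_smul]; abel
    rw [e]
    exact a3.add (one.smul (by linarith))
  have hB : ((1 : Matrix W W ℝ) + B).PosSemidef := by
    have e : (1 : Matrix W W ℝ) + B = (B + M • (1 : Matrix W W ℝ)) +
        (1 - M) • (1 : Matrix W W ℝ) := by
      rw [sub_smul, one_smul]; abel
    rw [e]
    exact b3.add (one.smul (by linarith))
  refine ⟨A ⊗ₖ B, ?_, ?_, ?_, ?_⟩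
  · rintro ⟨x1, x2⟩ ⟨y1, y2⟩ h
    rw [Matrix.kronecker_apply]
    by_cases h1 : X.Adj x1 y1
    · have h2 : ¬ Y.Adj x2 y2 := fun h2 => h ⟨h1, h2⟩
      rw [b1 x2 y2 h2, mul_zero]
    · rw [a1 x1 y1 h1, zero_mul]
  · rintro ⟨x1, x2⟩
    rw [Fintype.sum_prod_type]
    have e : ∀ y1, ∑ y2, (A ⊗ₖ B) (x1, x2) (y1, y2) = A x1 y1 := by
      intro y1
      simp only [Matrix.kronecker_apply]
      rw [← mul_sum, b2 x2, mul_one]
    rw [sum_congr rfl (fun y1 _ => e y1)]
    exact a2 x1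
  · have key : A ⊗ₖ B + M • (1 : Matrix (V × W) (V × W) ℝ) = (1 / (1 + M)) •
        ((A + M • (1 : Matrix V V ℝ)) ⊗ₖ (B + M • (1 : Matrix W W ℝ)) +
          M • (((1 : Matrix V V ℝ) - A) ⊗ₖ ((1 : Matrix W W ℝ) - B))) := by
      ext ⟨x1, x2⟩ ⟨y1, y2⟩
      have h1 : (1 + M) ≠ 0 := by positivity
      simp only [Matrix.add_apply, Matrix.smul_apply, Matrix.kronecker_apply, Matrix.sub_apply,
        smul_eq_mul]
      have e : (1 : Matrix (V × W) (V × W) ℝ) (x1, x2) (y1, y2) =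
          (1 : Matrix V V ℝ) x1 y1 * (1 : Matrix W W ℝ) x2 y2 := by
        rw [← Matrix.one_kronecker_one, Matrix.kronecker_apply]
      rw [e]
      field_simp
      ring
    rw [key]
    exact ((a3.kronecker b3).add ((a4.kronecker b4).smul hM0)).smul (by positivity)
  · have key : (1 : Matrix (V × W) (V × W) ℝ) - A ⊗ₖ B = (1 / 2 : ℝ) •
        (((1 : Matrix V V ℝ) - A) ⊗ₖ ((1 : Matrix W W ℝ) + B) +
          ((1 : Matrix V V ℝ) + A) ⊗ₖ ((1 : Matrix W W ℝ) - B)) := by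
      ext ⟨x1, x2⟩ ⟨y1, y2⟩
      simp only [Matrix.add_apply, Matrix.smul_apply, Matrix.kronecker_apply, Matrix.sub_apply,
        smul_eq_mul]
      have e : (1 : Matrix (V × W) (V × W) ℝ) (x1, x2) (y1, y2) =
          (1 : Matrix V V ℝ) x1 y1 * (1 : Matrix W W ℝ) x2 y2 := by
        rw [← Matrix.one_kronecker_one, Matrix.kronecker_apply]
      rw [e]
      ring
    rw [key]
    exact ((a4.kronecker hB).add (hA.kronecker b4)).smul (by norm_num)

end Pool.Agent.Helper14.FO
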