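import Pool.Agent.Helper14.FO.Defs

/-! `ST_TREE`: a tree of points in convex position. -/

set_option autoImplicit false

namespace Pool.Agent.Helper14.FO

open Finset

noncomputable def tree_sg : ℕ → ℝ
  | 0 => 1 / 100
  | l + 1 => tree_sg l ^ 2 / 144

noncomputable def tree_s : List Bool → ℝ
  | [] => 0
  | b :: w => tree_s w + (if b = true then tree_sg w.length else 0)

noncomputable def tree_S (l : ℕ) : ℝ := ∑ i ∈ range l, tree_sg i

theorem tree_pos : ∀ l, 0 < tree_sg l ∧ tree_sg l ≤ 1 / 100 := by
  intro l
  induction l with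
  | zero => simp only [tree_sg]; norm_num
  | succ l ih =>
    obtain ⟨h1, h2⟩ := ih
    simp only [tree_sg]
    refine ⟨by positivity, ?_⟩
    nlinarith

theorem tree_dec (l : ℕ) : tree_sg (l + 1) ≤ tree_sg l / 14400 := by
  obtain ⟨h1, h2⟩ := tree_pos l
  simp only [tree_sg]
  nlinarith

theorem tree_anti : Antitone tree_sg := by
  apply antitone_nat_of_succ_le
  intro l
  have := tree_dec l
  have := (tree_pos l).1
  linarith

theorem tree_S_succ (l : ℕ) : tree_S (l + 1) = tree_S l + tree_sg l := by
  simp only [tree_S, sum_range_succ]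

theorem tree_S_mono : Monotone tree_S := by
  apply monotone_nat_of_le_succ
  intro l
  rw [tree_S_succ]
  have := (tree_pos l).1
  linarith

theorem tree_S_anti : Antitone (fun l => tree_S l + 2 * tree_sg l) := by
  apply antitone_nat_of_succ_le
  intro l
  simp only [tree_S_succ]
  have := (tree_pos l).1
  have := tree_dec l
  linarith

theorem tree_S_bd (l : ℕ) : 0 ≤ tree_S l ∧ tree_S l ≤ 1 / 50 := by
  have h0 : tree_S 0 = 0 := by simp [tree_S]
  have h1 := tree_S_mono (Nat.zero_le l)
  have h2 := tree_S_anti (Nat.zero_le l)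
  simp only [h0] at h1 h2
  have h3 : tree_sg 0 = 1 / 100 := rfl
  rw [h3] at h2
  have := (tree_pos l).1
  exact ⟨h1, by linarith⟩

theorem tree_app (w : List Bool) : ∀ u : List Bool, tree_s w ≤ tree_s (u ++ w) ∧
    tree_s (u ++ w) ≤ tree_s w + (tree_S (u ++ w).length - tree_S w.length) := by
  intro u
  induction u with
  | nil => simp
  | cons b u ih =>
    obtain ⟨h1, h2⟩ := ih
    have hp := (tree_pos (u ++ w).length).1
    have e : tree_s (b :: u ++ w) = tree_s (u ++ w) +
        (if b = true then tree_sg (u ++ w).length else 0) := rfl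
    have e2 : (b :: u ++ w).length = (u ++ w).length + 1 := rfl
    rw [e, e2, tree_S_succ]
    split_ifs
    · exact ⟨by linarith, by linarith⟩
    · exact ⟨by linarith, by linarith⟩

theorem tree_s_bd (w : List Bool) : 0 ≤ tree_s w ∧ tree_s w ≤ 1 / 50 := by
  have h := tree_app [] w
  simp only [List.append_nil, List.length_nil] at h
  have e : tree_s [] = 0 := rfl
  have e2 : tree_S 0 = 0 := by simp [tree_S]
  rw [e, e2] at h
  have := (tree_S_bd w.length).2
  exact ⟨h.1, by linarith [h.2]⟩

theorem tree_pre : ∀ a b : List Bool, b <+: a ∨ a <+: b ∨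
    ∃ c x y a' b', x ≠ y ∧ a = c ++ x :: a' ∧ b = c ++ y :: b' := by
  intro a
  induction a with
  | nil => intro b; exact Or.inr (Or.inl (List.nil_prefix))
  | cons x a ih =>
    intro b
    cases b with
    | nil => exact Or.inl (List.nil_prefix)
    | cons y b =>
      by_cases hxy : x = y
      · subst hxy
        rcases ih b with h | h | ⟨c, x', y', a', b', h, ha, hb⟩
        · left
          obtain ⟨t, ht⟩ := h
          exact ⟨t, by rw [← ht]; rfl⟩
        · right; left
          obtain ⟨t, ht⟩ := h
          exact ⟨t, by rw [← ht]; rfl⟩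
        · right; right
          exact ⟨x :: c, x', y', a', b', h, by rw [ha]; rfl, by rw [hb]; rfl⟩
      · right; right
        exact ⟨[], x, y, a, b, hxy, rfl, rfl⟩

theorem tree_suf (a b : List Bool) : b <:+ a ∨ a <:+ b ∨
    ∃ c x y a' b', x ≠ y ∧ a = a' ++ x :: c ∧ b = b' ++ y :: c := by
  rcases tree_pre a.reverse b.reverse with h | h | ⟨c, x, y, a', b', h, ha, hb⟩
  · exact Or.inl (List.reverse_prefix.1 h)
  · exact Or.inr (Or.inl (List.reverse_prefix.1 h))
  · right; right
    refine ⟨c.reverse, x, y, a'.reverse, b'.reverse, h, ?_, ?_⟩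
    · have := congrArg List.reverse ha
      simpa using this
    · have := congrArg List.reverse hb
      simpa using this

theorem tree_key (a b : List Bool) (h : ¬ b <:+ a) :
    (tree_sg a.length + tree_sg b.length) / 2 <
      (tree_s a - tree_s b) ^ 2 +
        (3 * tree_S b.length - 3 * tree_S a.length) * (1 + 2 * tree_s a) := by
  obtain ⟨sa0, sa1⟩ := tree_s_bd a
  have pa := (tree_pos a.length).1
  have pb := (tree_pos b.length).1
  rcases tree_suf a b with h1 | h1 | ⟨c, x, y, a', b', hxy, ha, hb⟩
  · exact absurd h1 h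
  · have hlt : a.length < b.length := by
      rcases h1 with ⟨t, ht⟩
      cases t with
      | nil => exact absurd (by rw [← ht]; exact List.suffix_refl _) h
      | cons z t => rw [← ht]; simp
    have h2 := tree_S_mono (Nat.succ_le_of_lt hlt)
    simp only [Nat.succ_eq_add_one, tree_S_succ] at h2
    have h3 := tree_anti hlt.le
    nlinarith [sq_nonneg (tree_s a - tree_s b)]
  · have la : c.length + 1 ≤ a.length := by rw [ha]; simp
    have lb : c.length + 1 ≤ b.length := by rw [hb]; simp
    have ha2 := tree_app (x :: c) a'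
    have hb2 := tree_app (y :: c) b'
    rw [← ha] at ha2
    rw [← hb] at hb2
    have e2 : ∀ z : Bool, (z :: c).length = c.length + 1 := fun _ => rfl
    have e3 : ∀ z : Bool, tree_s (z :: c) = tree_s c +
      (if z = true then tree_sg c.length else 0) := fun _ => rfl
    rw [e2, e3] at ha2 hb2
    have ta := tree_S_anti la
    have tb := tree_S_anti lb
    simp only at ta tb
    have hd := tree_dec c.length
    have pc := (tree_pos c.length).1
    have hsg : tree_sg (c.length + 1) = tree_sg c.length ^ 2 / 144 := rfl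
    have hdiff : tree_sg c.length / 2 ≤ |tree_s a - tree_s b| := by
      cases x with
      | true =>
        cases y with
        | true => exact absurd rfl hxy
        | false =>
          simp only [if_true, Bool.false_eq_true, if_false] at ha2 hb2
          refine le_trans ?_ (le_abs_self _)
          linarith [ha2.1, hb2.2]
      | false =>
        cases y with
        | false => exact absurd rfl hxy
        | true =>
          simp only [if_true, Bool.false_eq_true, if_false] at ha2 hb2
          refine le_trans ?_ (neg_le_abs _)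
          linarith [ha2.2, hb2.1]
    have hsq : 36 * tree_sg (c.length + 1) ≤ (tree_s a - tree_s b) ^ 2 := by
      rw [hsg, ← sq_abs (tree_s a - tree_s b)]
      have h5 : (tree_sg c.length / 2) ^ 2 ≤ |tree_s a - tree_s b| ^ 2 :=
        pow_le_pow_left₀ (by linarith) hdiff 2
      linarith
    have aa := tree_anti la
    have ab := tree_anti lb
    have hD : 3 * tree_S a.length - 3 * tree_S b.length ≤ 6 * tree_sg b.length := by
      rcases le_total a.length b.length with h6 | h6
      · have := tree_S_mono h6
        linarith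
      · have := tree_S_anti h6
        simp only at this
        linarith
    have hD2 : (3 * tree_S a.length - 3 * tree_S b.length) * (1 + 2 * tree_s a) ≤
        6 * tree_sg b.length * 2 := by
      have h7 : (3 * tree_S a.length - 3 * tree_S b.length) * (1 + 2 * tree_s a) ≤
          6 * tree_sg b.length * (1 + 2 * tree_s a) :=
        mul_le_mul_of_nonneg_right hD (by linarith)
      have h8 : 6 * tree_sg b.length * (1 + 2 * tree_s a) ≤ 6 * tree_sg b.length * 2 :=
        mul_le_mul_of_nonneg_left (by linarith) (by linarith)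
      linarith
    nlinarith

theorem st_TREE : ST_TREE := by
  intro x0 x1 y0 y1 hx hy
  obtain ⟨κ, hκ, k1, k2⟩ : ∃ κ : ℝ, 0 < κ ∧ 4 * κ < x1 - x0 ∧ 4 * κ < y1 - y0 := by
    refine ⟨min (x1 - x0) (y1 - y0) / 8, ?_, ?_, ?_⟩
    · have := lt_min (sub_pos.2 hx) (sub_pos.2 hy)
      linarith
    · have := min_le_left (x1 - x0) (y1 - y0)
      linarith
    · have := min_le_right (x1 - x0) (y1 - y0)
      linarith
  obtain ⟨X, hX⟩ : ∃ X, X = (x0 + x1) / 2 := ⟨_, rfl⟩
  obtain ⟨Y, hY⟩ : ∃ Y, Y = (y0 + y1) / 2 := ⟨_, rfl⟩
  refine ⟨fun w => X + κ * (tree_s w - 3 * tree_S w.length),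
    fun w => Y + κ * (1 - tree_s w ^ 2 - 3 * tree_S w.length),
    fun l => κ * tree_sg l / 4, ?_, ?_, ?_, ?_⟩
  · intro l
    have := (tree_pos l).1
    positivity
  · intro w
    obtain ⟨s0, s1⟩ := tree_s_bd w
    obtain ⟨S0, S1⟩ := tree_S_bd w.length
    obtain ⟨g0, g1⟩ := tree_pos w.length
    have hs2 : tree_s w ^ 2 ≤ 1 / 50 := by nlinarith
    have hs3 : 0 ≤ tree_s w ^ 2 := sq_nonneg _
    have a1 : κ * (-1) ≤ κ * (tree_s w - 3 * tree_S w.length) :=
      mul_le_mul_of_nonneg_left (by linarith) hκ.le
    have a2 : κ * (tree_s w - 3 * tree_S w.length) ≤ κ * 1 :=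
      mul_le_mul_of_nonneg_left (by linarith) hκ.le
    have a3 : κ * (-1) ≤ κ * (1 - tree_s w ^ 2 - 3 * tree_S w.length) :=
      mul_le_mul_of_nonneg_left (by linarith) hκ.le
    have a4 : κ * (1 - tree_s w ^ 2 - 3 * tree_S w.length) ≤ κ * 1 :=
      mul_le_mul_of_nonneg_left (by linarith) hκ.le
    have a5 : κ * tree_sg w.length ≤ κ * 1 := mul_le_mul_of_nonneg_left (by linarith) hκ.le
    refine ⟨?_, ?_, ?_, ?_⟩ <;> simp only <;> linarith
  · intro w b
    obtain ⟨s0, s1⟩ := tree_s_bd w
    obtain ⟨g0, g1⟩ := tree_pos w.length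
    have hd := tree_dec w.length
    have e2 : (b :: w).length = w.length + 1 := rfl
    have e3 : tree_s (b :: w) = tree_s w + (if b = true then tree_sg w.length else 0) := rfl
    have a0 : κ * tree_sg (w.length + 1) ≤ κ * tree_sg w.length :=
      mul_le_mul_of_nonneg_left (by linarith) hκ.le
    have a1 : 0 < κ * tree_sg w.length := by positivity
    simp only [e2, e3, tree_S_succ]
    obtain ⟨t, ht⟩ : ∃ t, t = (if b = true then tree_sg w.length else 0) := ⟨_, rfl⟩
    have t0 : 0 ≤ t := by rw [ht]; split_ifs <;> linarith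
    have t1 : t ≤ tree_sg w.length := by rw [ht]; split_ifs <;> linarith
    rw [← ht]
    have a2 : κ * t ≤ κ * tree_sg w.length := mul_le_mul_of_nonneg_left t1 hκ.le
    have a3 : 0 ≤ κ * ((tree_s w + t) ^ 2 - tree_s w ^ 2) := by
      apply mul_nonneg hκ.le
      nlinarith
    constructor <;> nlinarith
  · intro F H hF hH a
    refine ⟨2 * tree_s a, 1, by linarith [(tree_s_bd a).1], by norm_num, ?_⟩
    intro b hb
    have key := tree_key a b hb
    obtain ⟨s0, s1⟩ := tree_s_bd a
    have fa := abs_lt.1 (hF a)
    have fb := abs_lt.1 (hF b)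
    have ga := abs_lt.1 (hH a)
    have gb := abs_lt.1 (hH b)
    simp only at fa fb ga gb
    have pa := (tree_pos a.length).1
    have pb := (tree_pos b.length).1
    have qa : 0 < κ * tree_sg a.length := by positivity
    have qb : 0 < κ * tree_sg b.length := by positivity
    have key2 := mul_lt_mul_of_pos_left key hκ
    have u1 : 2 * tree_s a * (F b - (X + κ * (tree_s b - 3 * tree_S b.length))) ≤
        2 * tree_s a * (κ * tree_sg b.length / 4) :=
      mul_le_mul_of_nonneg_left fb.2.le (by linarith)
    have u2 : 2 * tree_s a * (-(κ * tree_sg a.length / 4)) ≤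
        2 * tree_s a * (F a - (X + κ * (tree_s a - 3 * tree_S a.length))) :=
      mul_le_mul_of_nonneg_left fa.1.le (by linarith)
    have u3 : 2 * tree_s a * (κ * tree_sg b.length / 4) ≤ 1 * (κ * tree_sg b.length / 4) :=
      mul_le_mul_of_nonneg_right (by linarith) (by linarith)
    have u4 : 2 * tree_s a * (κ * tree_sg a.length / 4) ≤ 1 * (κ * tree_sg a.length / 4) :=
      mul_le_mul_of_nonneg_right (by linarith) (by linarith)
    nlinarith

end Pool.Agent.Helper14.FO
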