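import Pool.Agent.Helper14.FO.Defs2

set_option autoImplicit false

namespace Pool.Agent.Helper14.FO

open Finset

theorem rt2_ti (N D : ℕ) : TI (BG N D) := by
  intro a b g
  have hd : hammingDist (a + g) (b + g) = hammingDist a b := by
    unfold hammingDist
    congr 1
    apply Finset.filter_congr
    intro i _
    simp
  show (a + g ≠ b + g ∧ hammingDist (a + g) (b + g) = D) ↔ (a ≠ b ∧ hammingDist a b = D)
  rw [hd]
  simp

theorem rt2_ind (h2 : ST_FW) (C N r P : ℕ) (hP : P.Prime) (hP2 : 2 < P) (hN : N < 4 * P)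
    (hr : N - r = 2 * P)
    (hs : 2 * ((∑ i ∈ range P, N.choose i : ℕ) : ℝ) ≤ 1 / (2 * ((C : ℝ) + 1)) * 2 ^ N)
    (I : Finset (Fin N → ZMod 2)) (hI : Ind (BG N (N - r)) I) :
    C * I.card < Fintype.card (Fin N → ZMod 2) := by
  have h := h2 N P hP hP2 hN I (by
    intro x hx y hy hxy
    by_cases he : x = y
    · subst he
      rw [hammingDist_self] at hxy
      omega
    · exact hI x hx y hy ⟨he, by rw [hr]; exact hxy⟩)
  have hc : Fintype.card (Fin N → ZMod 2) = 2 ^ N := by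
    rw [Fintype.card_fun, ZMod.card, Fintype.card_fin]
  rw [hc]
  have h' : (I.card : ℝ) ≤ 2 * ((∑ i ∈ range P, N.choose i : ℕ) : ℝ) := by exact_mod_cast h
  have hC : (0 : ℝ) ≤ C := Nat.cast_nonneg C
  have h3 : (I.card : ℝ) ≤ 1 / (2 * ((C : ℝ) + 1)) * 2 ^ N := h'.trans hs
  have hp : (0 : ℝ) < 2 ^ N := by positivity
  have h4 : (C : ℝ) * I.card < 2 ^ N := by
    calc (C : ℝ) * I.card ≤ C * (1 / (2 * ((C : ℝ) + 1)) * 2 ^ N) :=
          mul_le_mul_of_nonneg_left h3 hC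
      _ = (C / (2 * ((C : ℝ) + 1))) * 2 ^ N := by ring
      _ < 1 * 2 ^ N := by
          apply mul_lt_mul_of_pos_right _ hp
          rw [div_lt_one (by positivity)]
          linarith
      _ = 2 ^ N := one_mul _
  exact_mod_cast h4

theorem rt2_base (h1 : ST_BC2) (h2 : ST_FW) (h3 : ST_VEC) (h4 : ST_DB2) (C : ℕ) (a b : ℝ)
    (ha : 1 / 3 ≤ a) (hab : a < b) (hb : b ≤ 1) : ∃ X : RD C, a < X.M ∧ X.M < b := by
  obtain ⟨N, r, P, hP, hP2, hN, hr, hr1, hr3, hM1, hM2, hs⟩ :=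
    h4 a b (1 / (2 * ((C : ℝ) + 1))) ha hab hb (by positivity)
  refine ⟨{ G := Fin N → ZMod 2, R := BG N (N - r), M := 1 - 2 * (r : ℝ) / N,
            ti := rt2_ti N (N - r),
            ind := rt2_ind h2 C N r P hP hP2 hN hr hs,
            cert := h1 N r hr1 hr3 (by rw [hr]; exact even_two_mul P),
            upt := h3 N r (by omega),
            lo := by linarith,
            hi := by linarith }, hM1, hM2⟩

theorem st_RT2 (h1 : ST_BC2) (h2 : ST_FW) (h3 : ST_VEC) (h4 : ST_DB2) (h5 : ST_ORK) : ST_RT2 := by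
  intro C a b ha hab hb
  have hb0 : 0 < b := lt_of_le_of_lt ha hab
  obtain ⟨m, hm⟩ : ∃ m : ℝ, m = (a + b) / 2 := ⟨_, rfl⟩
  have hma : a < m := by rw [hm]; linarith
  have hmb : m < b := by rw [hm]; linarith
  have hm0 : 0 < m := lt_of_le_of_lt ha hma
  have hm1 : m < 1 := lt_of_lt_of_le hmb hb
  obtain ⟨th, hth⟩ : ∃ th : ℝ, th = 1 + 1 / m := ⟨_, rfl⟩
  have h1m : 1 < 1 / m := by rw [lt_div_iff₀ hm0]; linarith
  have hth2 : 2 < th := by rw [hth]; linarith
  have hLth : 1 + 1 / b < th := by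
    rw [hth]
    have := one_div_lt_one_div_of_lt hm0 hmb
    linarith
  obtain ⟨j, hj⟩ : ∃ j : ℕ, j = ⌈th / 4⌉₊ := ⟨_, rfl⟩
  have hj1 : 1 ≤ j := by
    rw [hj]
    exact Nat.one_le_ceil_iff.mpr (by linarith)
  have hjR : (1 : ℝ) ≤ j := by exact_mod_cast hj1
  have hj0 : (0 : ℝ) < j := by linarith
  have hjle : th / 4 ≤ j := by rw [hj]; exact Nat.le_ceil _
  have hjlt : (j : ℝ) < th / 4 + 1 := by rw [hj]; exact Nat.ceil_lt_add_one (by linarith)
  haveI : NeZero j := ⟨by omega⟩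
  have ht1 : th / j ≤ 4 := by
    rw [div_le_iff₀ hj0]; linarith
  have ht2 : 2 < th / j := by
    rw [lt_div_iff₀ hj0]
    by_cases h : th ≤ 4
    · have : j ≤ 1 := by
        rw [hj]
        exact Nat.ceil_le.mpr (by push_cast; linarith)
      have : (j : ℝ) ≤ 1 := by exact_mod_cast this
      linarith
    · push Not at h
      linarith
  have hL2 : (1 + 1 / b) / j < th / j := div_lt_div_of_pos_right hLth hj0
  obtain ⟨t0, ht0⟩ : ∃ t0 : ℝ, t0 = max 2 ((1 + 1 / b) / j) := ⟨_, rfl⟩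
  have ht0lt : t0 < th / j := by rw [ht0]; exact max_lt ht2 hL2
  have ht02 : 2 ≤ t0 := by rw [ht0]; exact le_max_left _ _
  have ht0L : (1 + 1 / b) / j ≤ t0 := by rw [ht0]; exact le_max_right _ _
  obtain ⟨X, hX1, hX2⟩ := rt2_base h1 h2 h3 h4 C (1 / (th / j - 1)) (1 / (t0 - 1))
    (by
      rw [div_le_div_iff₀ (by norm_num) (by linarith)]
      linarith)
    (one_div_lt_one_div_of_lt (by linarith) (by linarith))
    (by
      rw [div_le_one (by linarith)]
      linarith)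
  obtain ⟨Y, hY⟩ := h5 j C X
  have hXp := X.lo
  have hYp := Y.lo
  have hx1 : 1 / X.M < th / j - 1 := by
    rw [div_lt_iff₀ (by linarith)] at hX1
    rw [div_lt_iff₀ hXp]
    linarith
  have hx2 : t0 - 1 < 1 / X.M := by
    rw [lt_div_iff₀ (by linarith)] at hX2
    rw [lt_div_iff₀ hXp]
    linarith
  have hj1' : (j : ℝ) * (1 + 1 / X.M) < th := by
    have : 1 + 1 / X.M < th / j := by linarith
    calc (j : ℝ) * (1 + 1 / X.M) < j * (th / j) := mul_lt_mul_of_pos_left this hj0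
      _ = th := by field_simp
  have hj2' : 1 + 1 / b < (j : ℝ) * (1 + 1 / X.M) := by
    have : (1 + 1 / b) / j < 1 + 1 / X.M := by linarith
    rw [div_lt_iff₀ hj0] at this
    linarith
  rw [← hY] at hj1' hj2'
  refine ⟨Y, ?_, ?_⟩
  · have : 1 / Y.M < 1 / m := by rw [hth] at hj1'; linarith
    have := (one_div_lt_one_div hYp hm0).mp this
    linarith
  · have : 1 / b < 1 / Y.M := by linarith
    exact (one_div_lt_one_div hb0 hYp).mp this

end Pool.Agent.Helper14.FO
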