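import Pool.Agent.Helper14.FO.Defs2

set_option autoImplicit false

namespace Pool.Agent.Helper14.FO

open Finset

theorem zhu_sumA {V W : Type} [Fintype V] [Fintype W] [DecidableEq V] [DecidableEq W]
    (φ : V → ℝ) (ψ : W → ℝ) (T : Finset (V × W)) :
    ∑ z ∈ T, PW φ ψ z = ∑ y, ψ y * ∑ x ∈ univ.filter (fun x => (x, y) ∈ T), φ x := by
  have h1 : ∑ z ∈ T, PW φ ψ z = ∑ z : V × W, if z ∈ T then PW φ ψ z else 0 := by
    rw [← Finset.sum_filter]
    congr 1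
    ext z
    simp
  rw [h1, Fintype.sum_prod_type, Finset.sum_comm]
  apply Finset.sum_congr rfl
  intro y _
  rw [Finset.sum_filter, Finset.mul_sum]
  apply Finset.sum_congr rfl
  intro x _
  by_cases h : (x, y) ∈ T
  · rw [if_pos h, if_pos h]
    show φ x * ψ y = ψ y * φ x
    ring
  · rw [if_neg h, if_neg h, mul_zero]

theorem zhu_sumB {V W : Type} [Fintype V] [Fintype W] [DecidableEq V] [DecidableEq W]
    (φ : V → ℝ) (ψ : W → ℝ) (T : Finset (V × W)) :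
    ∑ z ∈ T, PW φ ψ z = ∑ x, φ x * ∑ y ∈ univ.filter (fun y => (x, y) ∈ T), ψ y := by
  have h1 : ∑ z ∈ T, PW φ ψ z = ∑ z : V × W, if z ∈ T then PW φ ψ z else 0 := by
    rw [← Finset.sum_filter]
    congr 1
    ext z
    simp
  rw [h1, Fintype.sum_prod_type]
  apply Finset.sum_congr rfl
  intro x _
  rw [Finset.sum_filter, Finset.mul_sum]
  apply Finset.sum_congr rfl
  intro y _
  by_cases h : (x, y) ∈ T
  · rw [if_pos h, if_pos h]
    rfl
  · rw [if_neg h, if_neg h, mul_zero]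

theorem zhu_total {V W : Type} [Fintype V] [Fintype W]
    (φ : V → ℝ) (ψ : W → ℝ) (h1 : ∑ x, φ x = 1) (h2 : ∑ y, ψ y = 1) :
    ∑ z : V × W, PW φ ψ z = 1 := by
  rw [Fintype.sum_prod_type]
  have : ∀ x, ∑ y, PW φ ψ (x, y) = φ x := by
    intro x
    show ∑ y, φ x * ψ y = φ x
    rw [← Finset.mul_sum, h2, mul_one]
  rw [Finset.sum_congr rfl (fun x _ => this x), h1]

open Classical in
theorem st_ZHU : ST_ZHU := by
  intro V W _ _ _ _ X Y φ ψ c hφ hψ sφ sψ hX hY S hS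
  obtain ⟨A, hA⟩ : ∃ A : Finset (V × W), ∀ z, z ∈ A ↔
      z ∈ S ∧ ∀ x', X.Adj z.1 x' → (x', z.2) ∉ S :=
    ⟨S.filter (fun z => ∀ x', X.Adj z.1 x' → (x', z.2) ∉ S), fun z => by simp⟩
  obtain ⟨B, hB⟩ : ∃ B : Finset (V × W), ∀ z, z ∈ B ↔
      z ∈ S ∧ ∃ x', X.Adj z.1 x' ∧ (x', z.2) ∈ S :=
    ⟨S.filter (fun z => ∃ x', X.Adj z.1 x' ∧ (x', z.2) ∈ S), fun z => by simp⟩
  have hAB : ∑ z ∈ S, PW φ ψ z = ∑ z ∈ A, PW φ ψ z + ∑ z ∈ B, PW φ ψ z := by
    rw [← Finset.sum_union]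
    · congr 1
      ext z
      rw [Finset.mem_union, hA, hB]
      constructor
      · intro hz
        by_cases h : ∃ x', X.Adj z.1 x' ∧ (x', z.2) ∈ S
        · exact Or.inr ⟨hz, h⟩
        · left
          refine ⟨hz, fun x' hx' hs => h ⟨x', hx', hs⟩⟩
      · rintro (h | h)
        · exact h.1
        · exact h.1
    · rw [Finset.disjoint_left]
      intro z hz1 hz2
      obtain ⟨x', hx', hs⟩ := ((hB z).mp hz2).2
      exact ((hA z).mp hz1).2 x' hx' hs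
  have indA : ∀ y, Ind X (univ.filter (fun x => (x, y) ∈ A)) := by
    intro y a ha b hb hab
    rw [Finset.mem_filter] at ha hb
    exact ((hA _).mp ha.2).2 b hab ((hA _).mp hb.2).1
  have indB : ∀ x, Ind Y (univ.filter (fun y => (x, y) ∈ B)) := by
    intro x a ha b hb hab
    rw [Finset.mem_filter] at ha hb
    obtain ⟨x', hx', hs⟩ := ((hB _).mp ha.2).2
    exact hS (x', a) hs (x, b) ((hB _).mp hb.2).1 ⟨hx'.symm, hab⟩
  obtain ⟨NA, hNA⟩ : ∃ NA : Finset (V × W), ∀ z, z ∈ NA ↔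
      z ∈ A ∨ ∃ a, (a, z.2) ∈ A ∧ X.Adj a z.1 :=
    ⟨univ.filter (fun z => z ∈ A ∨ ∃ a, (a, z.2) ∈ A ∧ X.Adj a z.1), fun z => by simp⟩
  obtain ⟨NB, hNB⟩ : ∃ NB : Finset (V × W), ∀ z, z ∈ NB ↔
      z ∈ B ∨ ∃ b, (z.1, b) ∈ B ∧ Y.Adj b z.2 :=
    ⟨univ.filter (fun z => z ∈ B ∨ ∃ b, (z.1, b) ∈ B ∧ Y.Adj b z.2), fun z => by simp⟩
  have hdis : Disjoint NA NB := by
    rw [Finset.disjoint_left]
    intro z hz1 hz2
    rcases (hNA z).mp hz1 with h1 | ⟨a, ha, hax⟩ <;> rcases (hNB z).mp hz2 with h2 | ⟨b, hb, hby⟩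
    · obtain ⟨x', hx', hs⟩ := ((hB z).mp h2).2
      exact ((hA z).mp h1).2 x' hx' hs
    · obtain ⟨x', hx', hs⟩ := ((hB _).mp hb).2
      exact hS (x', b) hs z ((hA z).mp h1).1 ⟨hx'.symm, hby⟩
    · exact ((hA _).mp ha).2 z.1 hax ((hB z).mp h2).1
    · exact hS _ ((hA _).mp ha).1 _ ((hB _).mp hb).1 ⟨hax, hby.symm⟩
  have leA : c * ∑ z ∈ A, PW φ ψ z ≤ ∑ z ∈ NA, PW φ ψ z := by
    rw [zhu_sumA, zhu_sumA, Finset.mul_sum]
    apply Finset.sum_le_sum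
    intro y _
    have := hX _ (indA y) (univ.filter (fun x => (x, y) ∈ NA)) (by
      intro x
      rw [Finset.mem_filter, Finset.mem_filter, hNA]
      constructor
      · rintro ⟨_, h | ⟨a, ha, hax⟩⟩
        · exact Or.inl ⟨Finset.mem_univ _, h⟩
        · exact Or.inr ⟨a, Finset.mem_filter.mpr ⟨Finset.mem_univ _, ha⟩, hax⟩
      · rintro (h | ⟨a, ha, hax⟩)
        · exact ⟨Finset.mem_univ _, Or.inl h.2⟩
        · exact ⟨Finset.mem_univ _, Or.inr ⟨a, (Finset.mem_filter.mp ha).2, hax⟩⟩)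
    have h2 := mul_le_mul_of_nonneg_left this (hψ y)
    linarith
  have leB : c * ∑ z ∈ B, PW φ ψ z ≤ ∑ z ∈ NB, PW φ ψ z := by
    rw [zhu_sumB, zhu_sumB, Finset.mul_sum]
    apply Finset.sum_le_sum
    intro x _
    have := hY _ (indB x) (univ.filter (fun y => (x, y) ∈ NB)) (by
      intro y
      rw [Finset.mem_filter, Finset.mem_filter, hNB]
      constructor
      · rintro ⟨_, h | ⟨b, hb, hby⟩⟩
        · exact Or.inl ⟨Finset.mem_univ _, h⟩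
        · exact Or.inr ⟨b, Finset.mem_filter.mpr ⟨Finset.mem_univ _, hb⟩, hby⟩
      · rintro (h | ⟨b, hb, hby⟩)
        · exact ⟨Finset.mem_univ _, Or.inl h.2⟩
        · exact ⟨Finset.mem_univ _, Or.inr ⟨b, (Finset.mem_filter.mp hb).2, hby⟩⟩)
    have h2 := mul_le_mul_of_nonneg_left this (hφ x)
    linarith
  have hall : ∑ z ∈ NA, PW φ ψ z + ∑ z ∈ NB, PW φ ψ z ≤ 1 := by
    rw [← Finset.sum_union hdis, ← zhu_total φ ψ sφ sψ]
    apply Finset.sum_le_sum_of_subset_of_nonneg (Finset.subset_univ _)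
    intro z _ _
    exact mul_nonneg (hφ _) (hψ _)
  rw [hAB, mul_add]
  linarith

end Pool.Agent.Helper14.FO
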